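import Mathlib

/-!
# An infinite word over 10 letters without abelian squares

The word is the fixed point of a 3-uniform morphism. The prefixes of its blocks are mapped to a
9-element cap set of `(ℤ/3)^3`, and this allows a descent from any abelian square to a shorter
one.
-/

namespace Pool.Agent.X64.Dn

/-- The ten letters. -/
abbrev L := Fin 10

/-- first letters of the blocks -/
def al : L → L := ![0, 1, 2, 3, 0, 2, 1, 3, 0, 1]
/-- middle letters of the blocks -/
def be : L → L := ![4, 8, 9, 2, 9, 7, 2, 7, 1, 4]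
/-- last letters of the blocks -/
def ga : L → L := ![6, 6, 4, 4, 5, 5, 6, 6, 7, 5]

/-- The fixed point. -/
def w (n : ℕ) : L :=
  if n = 0 then 0 else
    if n % 3 = 0 then al (w (n / 3)) else if n % 3 = 1 then be (w (n / 3)) else ga (w (n / 3))
termination_by n
decreasing_by all_goals omega

theorem w_zero : w 0 = 0 := by rw [w]; rfl

theorem w_al (t : ℕ) : w (3 * t) = al (w t) := by
  rcases Nat.eq_zero_or_pos t with rfl | h
  · rw [Nat.mul_zero, w_zero]; rfl
  · rw [w, if_neg (by omega), if_pos (by omega), show 3 * t / 3 = t by omega]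

theorem w_be (t : ℕ) : w (3 * t + 1) = be (w t) := by
  rw [w, if_neg (by omega), if_neg (by omega), if_pos (by omega), show (3 * t + 1) / 3 = t by omega]

theorem w_ga (t : ℕ) : w (3 * t + 2) = ga (w t) := by
  rw [w, if_neg (by omega), if_neg (by omega), if_neg (by omega),
    show (3 * t + 2) / 3 = t by omega]

section

variable {A : Type*} [AddCommGroup A]

/-- Sum of `g` over the prefix of length `k`. -/
def T (g : L → A) (k : ℕ) : A := ∑ i ∈ Finset.range k, g (w i)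

/-- Sum of `g` over a block. -/
def sg (g : L → A) (a : L) : A := g (al a) + g (be a) + g (ga a)

theorem T_succ (g : L → A) (k : ℕ) : T g (k + 1) = T g k + g (w k) := Finset.sum_range_succ _ _

theorem T_zero (g : L → A) : T g 0 = 0 := Finset.sum_range_zero _

theorem T_three (g : L → A) (t : ℕ) : T g (3 * t) = T (sg g) t := by
  induction t with
  | zero => rw [Nat.mul_zero, T_zero, T_zero]
  | succ t ih =>
    rw [show 3 * (t + 1) = 3 * t + 1 + 1 + 1 by ring, T_succ, T_succ, T_succ, ih, T_succ, w_al,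
      w_be, show 3 * t + 1 + 1 = 3 * t + 2 by ring, w_ga, sg]
    abel

theorem T_three_one (g : L → A) (t : ℕ) : T g (3 * t + 1) = T (sg g) t + g (al (w t)) := by
  rw [T_succ, T_three, w_al]

theorem T_three_two (g : L → A) (t : ℕ) :
    T g (3 * t + 2) = T (sg g) (t + 1) - g (ga (w t)) := by
  rw [show 3 * t + 2 = 3 * t + 1 + 1 by ring, T_succ, T_three_one, w_be, T_succ, sg]
  abel

end

/-- The number of letters `a` in the prefix of length `k`. -/
def cnt (a : L) (k : ℕ) : ℤ := T (fun b => if b = a then (1 : ℤ) else 0) k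

theorem T_eq {A : Type*} [AddCommGroup A] (g : L → A) (k : ℕ) :
    T g k = ∑ a, cnt a k • g a := by
  unfold cnt T
  simp_rw [Finset.sum_smul]
  rw [Finset.sum_comm]
  refine Finset.sum_congr rfl fun i _ => ?_
  simp

/-- The prefixes of lengths `k₁, k₂, k₃` form an arithmetic progression. -/
def AP (k₁ k₂ k₃ : ℕ) : Prop := ∀ a, cnt a k₁ + cnt a k₃ = 2 * cnt a k₂

theorem AP.eq {k₁ k₂ k₃ : ℕ} (h : AP k₁ k₂ k₃) {A : Type*} [AddCommGroup A] (g : L → A) :
    T g k₁ + T g k₃ = (2 : ℤ) • T g k₂ := by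
  rw [T_eq, T_eq, T_eq, ← Finset.sum_add_distrib, Finset.smul_sum]
  refine Finset.sum_congr rfl fun a _ => ?_
  rw [← add_smul, h a, mul_smul]

/-- The group of the cap set. -/
abbrev G := ZMod 3 × ZMod 3 × ZMod 3

/-- A map that vanishes on blocks. -/
def f : L → G := ![(1, 1, 2), (1, 2, 1), (0, 1, 0), (0, 0, 1), (0, 2, 2), (2, 2, 0), (2, 0, 2),
  (1, 0, 0), (0, 1, 0), (0, 0, 1)]

theorem sg_f : sg f = 0 := by
  funext a
  revert a
  decide

/-- The cap set. -/
def val : Fin 9 → G := ![(1, 1, 2), (1, 2, 1), (0, 1, 0), (0, 0, 1), (0, 1, 1), (1, 1, 0),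
  (1, 0, 1), (2, 0, 0), (0, 0, 0)]

set_option maxRecDepth 100000 in
theorem cap : ∀ i j k : Fin 9, val i + val k = (2 : ℤ) • val j → i = j ∧ j = k := by
  decide

def al9 : L → Fin 9 := ![0, 1, 2, 3, 0, 2, 1, 3, 0, 1]
def ga9 : L → Fin 9 := ![6, 6, 4, 4, 5, 5, 6, 6, 7, 5]

theorem val_al : ∀ a, val (al9 a) = f (al a) := by decide
theorem val_ga : ∀ a, val (ga9 a) = -f (ga a) := by decide
theorem al_of_al9 : ∀ a b, al9 a = al9 b → al a = al b := by decide
theorem ga_of_ga9 : ∀ a b, ga9 a = ga9 b → ga a = ga b := by decide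
theorem al9_lt : ∀ a, (al9 a : ℕ) < 4 := by decide
theorem ga9_lt : ∀ a, 4 ≤ (ga9 a : ℕ) ∧ (ga9 a : ℕ) < 8 := by decide

def idx (k : ℕ) : Fin 9 :=
  if k % 3 = 0 then 8 else if k % 3 = 1 then al9 (w (k / 3)) else ga9 (w (k / 3))

theorem idx_zero (t : ℕ) : idx (3 * t) = 8 := by
  rw [idx, if_pos (by omega)]

theorem idx_one (t : ℕ) : idx (3 * t + 1) = al9 (w t) := by
  rw [idx, if_neg (by omega), if_pos (by omega), show (3 * t + 1) / 3 = t by omega]

theorem idx_two (t : ℕ) : idx (3 * t + 2) = ga9 (w t) := by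
  rw [idx, if_neg (by omega), if_neg (by omega), show (3 * t + 2) / 3 = t by omega]

theorem three_cases (k : ℕ) : ∃ t, k = 3 * t ∨ k = 3 * t + 1 ∨ k = 3 * t + 2 :=
  ⟨k / 3, by omega⟩

theorem T_zero_fun {A : Type*} [AddCommGroup A] (k : ℕ) : T (0 : L → A) k = 0 := by
  unfold T
  simp

theorem T_f (k : ℕ) : T f k = val (idx k) := by
  obtain ⟨t, rfl | rfl | rfl⟩ := three_cases k
  · rw [T_three, sg_f, T_zero_fun, idx_zero]; rfl
  · rw [T_three_one, sg_f, T_zero_fun, idx_one, val_al, zero_add]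
  · rw [T_three_two, sg_f, T_zero_fun, idx_two, val_ga, zero_sub]

/-- three times the inverse of the incidence matrix -/
def inv : L → L → ℤ := ![
  ![1, -1, 0, -1, 1, 0, 1, 0, 0, -1],
  ![0, 0, 0, 0, 0, 0, 0, 0, 3, 0],
  ![-1, 0, 0, -1, 1, -1, 0, 1, 0, 2],
  ![1, 0, 1, 2, 0, 0, -1, -1, 1, -1],
  ![1, 0, 0, 1, -1, 1, 0, -1, 0, 1],
  ![0, -1, 1, -1, 0, 1, 0, 1, 1, -1],
  ![0, 1, 1, 0, -1, 0, 1, -1, -2, 0],
  ![-1, 0, -1, 1, 0, 0, 1, 1, -1, 1],
  ![1, 1, 0, 0, 0, -1, -1, 1, 0, 0],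
  ![-1, 1, -1, 0, 1, 1, 0, 0, -1, 0]]

theorem sg_inv : ∀ a b, sg (inv a) b = if b = a then 3 else 0 := by decide

theorem T_sg_inv (a : L) (k : ℕ) : T (sg (inv a)) k = 3 * cnt a k := by
  unfold cnt T
  rw [Finset.mul_sum]
  refine Finset.sum_congr rfl fun i _ => ?_
  rw [sg_inv]
  show (if w i = a then (3 : ℤ) else 0) = 3 * (if w i = a then (1 : ℤ) else 0)
  split_ifs <;> rfl

theorem AP.of_three {t₁ t₂ t₃ : ℕ}
    (h : ∀ g : L → ℤ, T (sg g) t₁ + T (sg g) t₃ = (2 : ℤ) • T (sg g) t₂) : AP t₁ t₂ t₃ := by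
  intro a
  have := h (inv a)
  rw [T_sg_inv, T_sg_inv, T_sg_inv, smul_eq_mul] at this
  linarith

/-- There is no abelian square. -/
theorem no_ap : ∀ k₃ k₁ k₂ : ℕ, k₁ < k₂ → k₂ < k₃ → ¬ AP k₁ k₂ k₃ := by
  intro k₃
  induction k₃ using Nat.strong_induction_on with
  | _ k₃ ih =>
    intro k₁ k₂ h12 h23 h
    have hf := h.eq f
    rw [T_f, T_f, T_f] at hf
    obtain ⟨e1, e2⟩ := cap _ _ _ hf
    obtain ⟨t₁, c1⟩ := three_cases k₁
    obtain ⟨t₂, c2⟩ := three_cases k₂
    obtain ⟨t₃, c3⟩ := three_cases k₃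
    have A1 := al9_lt (w t₁)
    have A2 := al9_lt (w t₂)
    have A3 := al9_lt (w t₃)
    have B1 := ga9_lt (w t₁)
    have B2 := ga9_lt (w t₂)
    have B3 := ga9_lt (w t₃)
    have e1' := congrArg Fin.val e1
    have e2' := congrArg Fin.val e2
    have e8 : ((8 : Fin 9) : ℕ) = 8 := rfl
    rcases c1 with rfl | rfl | rfl <;> rcases c2 with rfl | rfl | rfl <;>
      rcases c3 with rfl | rfl | rfl <;>
      simp only [idx_zero, idx_one, idx_two, e8] at e1 e2 e1' e2' <;> try omega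
    · refine ih t₃ (by omega) t₁ t₂ (by omega) (by omega) (AP.of_three fun g => ?_)
      have := h.eq g
      rwa [T_three, T_three, T_three] at this
    · refine ih t₃ (by omega) t₁ t₂ (by omega) (by omega) (AP.of_three fun g => ?_)
      have := h.eq g
      rw [T_three_one, T_three_one, T_three_one, al_of_al9 _ _ e1, ← al_of_al9 _ _ e2,
        smul_eq_mul] at this
      rw [smul_eq_mul]
      linarith
    · refine ih (t₃ + 1) (by omega) (t₁ + 1) (t₂ + 1) (by omega) (by omega)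
        (AP.of_three fun g => ?_)
      have := h.eq g
      rw [T_three_two, T_three_two, T_three_two, ga_of_ga9 _ _ e1, ← ga_of_ga9 _ _ e2,
        smul_eq_mul] at this
      rw [smul_eq_mul]
      linarith

/-! ### Integers with no three-term arithmetic progression -/

theorem cnt_bound (a : L) (k : ℕ) : 0 ≤ cnt a k ∧ cnt a k ≤ k := by
  induction k with
  | zero => simp [cnt, T_zero]
  | succ k ih =>
    unfold cnt at ih ⊢
    rw [T_succ]
    push_cast
    split_ifs <;> constructor <;> linarith [ih.1, ih.2]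

theorem digits_zero (B : ℤ) (m : ℕ) : ∀ (c : ℕ → ℤ), (∀ i, |c i| < B) →
    ∑ i ∈ Finset.range m, c i * B ^ i = 0 → ∀ i < m, c i = 0 := by
  induction m with
  | zero => intro c _ _ i hi; omega
  | succ m ih =>
    intro c hc h
    have hB : 0 < B := lt_of_le_of_lt (abs_nonneg _) (hc 0)
    rw [Finset.sum_range_succ', pow_zero, mul_one] at h
    have e : ∑ k ∈ Finset.range m, c (k + 1) * B ^ (k + 1) =
        B * ∑ k ∈ Finset.range m, c (k + 1) * B ^ k := by
      rw [Finset.mul_sum]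
      exact Finset.sum_congr rfl fun k _ => by ring
    rw [e] at h
    have h0 : c 0 = 0 := by
      apply Int.eq_zero_of_abs_lt_dvd (m := B) ?_ (hc 0)
      exact ⟨-∑ k ∈ Finset.range m, c (k + 1) * B ^ k, by linarith⟩
    rw [h0, add_zero] at h
    have h1 := ih (fun i => c (i + 1)) (fun i => hc (i + 1))
      ((mul_eq_zero.1 h).resolve_left hB.ne')
    intro i hi
    rcases Nat.eq_zero_or_pos i with rfl | hi0
    · exact h0
    · have := h1 (i - 1) (by omega)
      simpa [Nat.sub_add_cancel hi0] using this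

/-- The integers `E k`, with at most ten different gaps. -/
def E (B : ℕ) (k : ℕ) : ℤ := T (fun a => (B : ℤ) ^ (a : ℕ)) k

theorem E_succ (B k : ℕ) : E B (k + 1) - E B k = (B : ℤ) ^ ((w k : L) : ℕ) := by
  unfold E
  rw [T_succ]
  ring

theorem E_lt {B : ℕ} (hB : 0 < B) : StrictMono (E B) := by
  apply strictMono_nat_of_lt_succ
  intro k
  have := E_succ B k
  have h2 : (0 : ℤ) < (B : ℤ) ^ ((w k : L) : ℕ) := by positivity
  linarith

theorem E_no_ap {n B : ℕ} (hB : 2 * n < B) {k₁ k₂ k₃ : ℕ} (h12 : k₁ < k₂) (h23 : k₂ < k₃)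
    (h3 : k₃ ≤ n) : E B k₁ + E B k₃ ≠ 2 * E B k₂ := by
  intro h
  apply no_ap k₃ k₁ k₂ h12 h23
  have key : ∑ i ∈ Finset.range 10, (fun i : ℕ => if hi : i < 10 then
      cnt ⟨i, hi⟩ k₁ + cnt ⟨i, hi⟩ k₃ - 2 * cnt ⟨i, hi⟩ k₂ else 0) i * (B : ℤ) ^ i = 0 := by
    rw [Finset.sum_range]
    have e : ∀ i : Fin 10, (fun i : ℕ => if hi : i < 10 then
      cnt ⟨i, hi⟩ k₁ + cnt ⟨i, hi⟩ k₃ - 2 * cnt ⟨i, hi⟩ k₂ else 0) (i : ℕ) * (B : ℤ) ^ (i : ℕ) =
        cnt i k₁ • (B : ℤ) ^ (i : ℕ) + cnt i k₃ • (B : ℤ) ^ (i : ℕ) -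
          2 * (cnt i k₂ • (B : ℤ) ^ (i : ℕ)) := by
      intro i
      simp only [i.2, dif_pos, Fin.eta, smul_eq_mul]
      ring
    rw [Finset.sum_congr rfl fun i _ => e i, Finset.sum_sub_distrib, Finset.sum_add_distrib,
      ← Finset.mul_sum]
    rw [E, E, E, T_eq, T_eq, T_eq] at h
    linarith
  have hz := digits_zero (B : ℤ) 10 _ (fun i => ?_) key
  · intro a
    have := hz a a.2
    simp only [a.2, dif_pos, Fin.eta] at this
    linarith
  · show |(if hi : i < 10 then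
      cnt ⟨i, hi⟩ k₁ + cnt ⟨i, hi⟩ k₃ - 2 * cnt ⟨i, hi⟩ k₂ else 0 : ℤ)| < B
    split_ifs with hi
    · have b1 := cnt_bound ⟨i, hi⟩ k₁
      have b2 := cnt_bound ⟨i, hi⟩ k₂
      have b3 := cnt_bound ⟨i, hi⟩ k₃
      rw [abs_lt]
      constructor <;> (push_cast at *; omega)
    · rw [abs_zero]; omega

end Pool.Agent.X64.Dn
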