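import Pool.Agent.X64.Ddn.Ind
import Pool.Agent.X64.Dn.Word

/-!
# Sums of powers of a transcendental number of modulus one that are real multiples of an edge
-/

namespace Pool.Agent.X64.Dn

open Polynomial

theorem zpow_indep {z : ℂ} (hz : ‖z‖ = 1) (htr : Transcendental ℤ z) {ι : Type*} (s : Finset ι)
    (c e : ι → ℤ) (h : ∑ i ∈ s, (c i : ℂ) * z ^ (e i) = 0) (m : ℤ) :
    ∑ i ∈ s, (if e i = m then c i else 0) = 0 := by
  have hz0 : z ≠ 0 := by
    rintro rfl
    rw [norm_zero] at hz
    exact zero_ne_one hz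
  obtain ⟨K, hK, hKm⟩ : ∃ K : ℕ, (∀ i ∈ s, 0 ≤ e i + K) ∧ 0 ≤ m + K := by
    refine ⟨s.sup (fun i => (e i).natAbs) + m.natAbs, fun i hi => ?_, by omega⟩
    have : (e i).natAbs ≤ s.sup (fun i => (e i).natAbs) :=
      Finset.le_sup (f := fun i => (e i).natAbs) hi
    omega
  set P : ℤ[X] := ∑ i ∈ s, C (c i) * X ^ ((e i + K).toNat) with hP
  have h1 : aeval z P = 0 := by
    rw [hP, map_sum]
    have : ∀ i ∈ s, aeval z (C (c i) * X ^ ((e i + K).toNat) : ℤ[X]) =
        z ^ (K : ℤ) * ((c i : ℂ) * z ^ (e i)) := by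
      intro i hi
      rw [map_mul, map_pow, aeval_X, aeval_C, ← zpow_natCast, Int.toNat_of_nonneg (hK i hi),
        zpow_add₀ hz0]
      simp
      ring
    rw [Finset.sum_congr rfl this, ← Finset.mul_sum, h, mul_zero]
  have h2 : P = 0 := by
    have hinj : Function.Injective (aeval z : ℤ[X] → ℂ) := transcendental_iff_injective.1 htr
    apply hinj
    rw [h1, map_zero]
  have h3 := congrArg (fun Q : ℤ[X] => Q.coeff (m + K).toNat) h2
  simp only [hP, finsetSum_coeff, coeff_C_mul, coeff_X_pow, coeff_zero] at h3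
  refine Eq.trans (Finset.sum_congr rfl fun i hi => ?_) h3
  have := hK i hi
  by_cases hm : e i = m
  · rw [if_pos hm, if_pos (by rw [hm]), mul_one]
  · rw [if_neg hm, if_neg (by omega), mul_zero]

/-- The coefficient of `x` in a sum. -/
def U (N : ℕ) (e u : ℕ → ℤ) (x : ℤ) : ℤ := ∑ k ∈ Finset.range N, (if e k = x then u k else 0)

theorem U_ne {N : ℕ} {e u : ℕ → ℤ} {x : ℤ} (h : U N e u x ≠ 0) : ∃ k < N, e k = x := by
  by_contra hcon
  push Not at hcon
  apply h
  apply Finset.sum_eq_zero
  intro k hk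
  rw [if_neg (hcon k (Finset.mem_range.1 hk))]

theorem U_eq {N : ℕ} {e u : ℕ → ℤ} (he : StrictMono e) {k : ℕ} (hk : k < N) :
    U N e u (e k) = u k := by
  rw [U, Finset.sum_eq_single_of_mem k (Finset.mem_range.2 hk), if_pos rfl]
  intro b _ hb
  rw [if_neg]
  exact fun h => hb (he.injective h)

theorem conj_zpow {z : ℂ} (hz : ‖z‖ = 1) (m : ℤ) :
    (starRingEnd ℂ) (z ^ m) = z ^ (-m) := by
  rw [map_zpow₀, zpow_neg, ← inv_zpow]
  congr 1
  rw [Complex.inv_def, Complex.normSq_eq_norm_sq, hz]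
  simp

/-- A real multiple gives a functional equation. -/
theorem rel {z : ℂ} (hz : ‖z‖ = 1) (htr : Transcendental ℤ z) {N : ℕ} {e u : ℕ → ℤ}
    {a b α β : ℤ} {t : ℝ}
    (h : ∑ k ∈ Finset.range N, (u k : ℂ) * z ^ (e k) = t * (α * z ^ a + β * z ^ b)) (m : ℤ) :
    β * U N e u (m + b) + α * U N e u (m + a) - β * U N e u (b - m) - α * U N e u (a - m) = 0 := by
  have hz0 : z ≠ 0 := by
    rintro rfl
    rw [norm_zero] at hz
    exact zero_ne_one hz
  have h1 := congrArg (starRingEnd ℂ) h
  simp only [map_sum, map_mul, map_add, conj_zpow hz, Complex.conj_ofReal, map_intCast] at h1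
  have h2 : (∑ k ∈ Finset.range N, (u k : ℂ) * z ^ (e k)) * (α * z ^ (-a) + β * z ^ (-b)) -
      (∑ k ∈ Finset.range N, (u k : ℂ) * z ^ (-e k)) * (α * z ^ a + β * z ^ b) = 0 := by
    rw [h, h1]
    ring
  have h3 := zpow_indep hz htr (Finset.range N ×ˢ (Finset.univ : Finset (Fin 4)))
    (fun i => ![α * u i.1, β * u i.1, -(α * u i.1), -(β * u i.1)] i.2)
    (fun i => ![e i.1 - a, e i.1 - b, a - e i.1, b - e i.1] i.2) ?_ m
  · rw [Finset.sum_product] at h3
    simp only [Fin.sum_univ_four, Finset.sum_add_distrib] at h3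
    rw [← h3]
    unfold U
    simp only [Finset.mul_sum, mul_ite, mul_zero]
    have e1 : ∀ (x y c v : ℤ), (if x - y = m then c * v else 0) = if x = m + y then c * v else 0 := by
      intro x y c v
      exact if_congr (by constructor <;> intro h <;> omega) rfl rfl
    have e2 : ∀ (x y c v : ℤ), (if y - x = m then -(c * v) else 0) =
        -(if x = y - m then c * v else 0) := by
      intro x y c v
      by_cases h : y - x = m
      · rw [if_pos h, if_pos (by omega)]
      · rw [if_neg h, if_neg (by omega), neg_zero]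
    show _ = ∑ i ∈ Finset.range N, (if e i - a = m then α * u i else 0) +
      ∑ i ∈ Finset.range N, (if e i - b = m then β * u i else 0) +
      ∑ i ∈ Finset.range N, (if a - e i = m then -(α * u i) else 0) +
      ∑ i ∈ Finset.range N, (if b - e i = m then -(β * u i) else 0)
    simp only [e1, e2, Finset.sum_neg_distrib]
    ring
  · rw [Finset.sum_product]
    simp only [Fin.sum_univ_four]
    rw [← h2, Finset.sum_mul, Finset.sum_mul, ← Finset.sum_sub_distrib]
    refine Finset.sum_congr rfl fun k _ => ?_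
    show ((α * u k : ℤ) : ℂ) * z ^ (e k - a) + ((β * u k : ℤ) : ℂ) * z ^ (e k - b) +
      ((-(α * u k) : ℤ) : ℂ) * z ^ (a - e k) + ((-(β * u k) : ℤ) : ℂ) * z ^ (b - e k) = _
    push_cast
    rw [sub_eq_add_neg (e k) a, sub_eq_add_neg (e k) b, sub_eq_add_neg a (e k),
      sub_eq_add_neg b (e k), zpow_add₀ hz0, zpow_add₀ hz0, zpow_add₀ hz0, zpow_add₀ hz0]
    ring

/-- The functional equation of a unit edge. -/
theorem func_unit {S : Set ℤ}
    (hap : ∀ x ∈ S, ∀ y ∈ S, ∀ z ∈ S, x < y → y < z → x + z ≠ 2 * y) {U : ℤ → ℤ}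
    (hU : ∀ x, U x ≠ 0 → x ∈ S) {a : ℤ} (ha : a ∈ S)
    (h : ∀ m, U (m + a) = U (a - m)) : ∀ x, x ≠ a → U x = 0 := by
  intro x hx
  by_contra hne
  have h1 := h (x - a)
  rw [sub_add_cancel, show a - (x - a) = 2 * a - x by ring] at h1
  have h2 : U (2 * a - x) ≠ 0 := h1 ▸ hne
  rcases lt_or_gt_of_ne hx with hlt | hlt
  · exact hap x (hU x hne) a ha _ (hU _ h2) hlt (by linarith) (by ring)
  · exact hap _ (hU _ h2) a ha x (hU x hne) (by linarith) hlt (by ring)

/-- The functional equation of a base edge. -/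
theorem func_base {S : Set ℤ} (hfin : S.Finite)
    (hap : ∀ x ∈ S, ∀ y ∈ S, ∀ z ∈ S, x < y → y < z → x + z ≠ 2 * y) {U : ℤ → ℤ}
    (hU : ∀ x, U x ≠ 0 → x ∈ S) {a b : ℤ} (ha : a ∈ S) (hb : b ∈ S) (hab : a < b)
    (hcons : ∀ x ∈ S, a < x → b ≤ x) {p q : ℤ} (hp : p ≠ 0) (hq : q ≠ 0) (hpq : q ^ 2 - p ^ 2 ≠ 0)
    (h : ∀ m, q * U (m + b) - p * U (m + a) - q * U (b - m) + p * U (a - m) = 0) :
    (∀ x, x ≠ a → x ≠ b → U x = 0) ∧ p * U b = -(q * U a) := by
  have hS : ∀ x y z, x ∈ S → y ∈ S → x < y → x + z = 2 * y → U z = 0 := by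
    intro x y z hx hy hxy hz
    by_contra hne
    exact hap x hx y hy z (hU z hne) hxy (by linarith) hz
  have hS' : ∀ x y z, z ∈ S → y ∈ S → y < z → x + z = 2 * y → U x = 0 := by
    intro x y z hz hy hyz hx
    by_contra hne
    exact hap x (hU x hne) y hy z hz (by linarith) hyz hx
  have hbig : ∀ x, b < x → U x = 0 := by
    by_contra hcon
    push Not at hcon
    have hfin2 : Set.Finite {x | b < x ∧ U x ≠ 0} := hfin.subset fun x hx => hU x hx.2
    obtain ⟨x, hx⟩ := hfin2.exists_maximal hcon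
    have hmax : ∀ y, x < y → U y = 0 := by
      intro y hy
      by_contra hne
      exact absurd (hx.le_of_ge ⟨by linarith [hx.prop.1], hne⟩ hy.le) (by linarith)
    obtain ⟨hbx, hne⟩ := hx.prop
    have hxS := hU x hne
    have r1 := h (x - a)
    rw [show x - a + b = x + (b - a) by ring, hmax _ (by linarith), sub_add_cancel,
      show a - (x - a) = 2 * a - x by ring, hS' (2 * a - x) a x hxS ha (by linarith) (by ring),
      show b - (x - a) = a + b - x by ring] at r1
    have hne2 : U (a + b - x) ≠ 0 := by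
      intro h0
      rw [h0] at r1
      have : p * U x = 0 := by linarith
      rcases mul_eq_zero.1 this with h1 | h1
      · exact hp h1
      · exact hne h1
    have r2 := h (x - b)
    rw [sub_add_cancel, show x - b + a = 2 * a - (a + b - x) by ring,
      hS (a + b - x) a (2 * a - (a + b - x)) (hU _ hne2) ha (by linarith) (by ring),
      show b - (x - b) = 2 * b - x by ring, hS' (2 * b - x) b x hxS hb hbx (by ring),
      show a - (x - b) = a + b - x by ring] at r2
    have r3 : (q ^ 2 - p ^ 2) * U x = 0 := by linear_combination q * r2 + p * r1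
    rcases mul_eq_zero.1 r3 with h1 | h1
    · exact hpq h1
    · exact hne h1
  have hsmall : ∀ x, x < a → U x = 0 := by
    by_contra hcon
    push Not at hcon
    have hfin2 : Set.Finite {x | x < a ∧ U x ≠ 0} := hfin.subset fun x hx => hU x hx.2
    obtain ⟨x, hx⟩ := hfin2.exists_minimal hcon
    have hmin : ∀ y, y < x → U y = 0 := by
      intro y hy
      by_contra hne
      exact absurd (hx.le_of_le ⟨by linarith [hx.prop.1], hne⟩ hy.le) (by linarith)
    obtain ⟨hxa, hne⟩ := hx.prop
    have r1 := h (b - x)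
    rw [show b - x + b = b + (b - x) by ring, hbig _ (by linarith),
      show b - x + a = b + (a - x) by ring, hbig _ (by linarith),
      show b - (b - x) = x by ring, show a - (b - x) = x - (b - a) by ring,
      hmin (x - (b - a)) (by linarith)] at r1
    have : q * U x = 0 := by linarith
    rcases mul_eq_zero.1 this with h1 | h1
    · exact hq h1
    · exact hne h1
  refine ⟨?_, ?_⟩
  · intro x hxa hxb
    rcases lt_or_gt_of_ne hxa with h1 | h1
    · exact hsmall x h1
    rcases lt_or_gt_of_ne hxb with h2 | h2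
    · by_contra hne
      have := hcons x (hU x hne) h1
      linarith
    · exact hbig x h2
  · have r := h (b - a)
    rw [show b - a + b = b + (b - a) by ring, hbig _ (by linarith), sub_add_cancel,
      show b - (b - a) = a by ring, show a - (b - a) = a - (b - a) by ring,
      hsmall (a - (b - a)) (by linarith)] at r
    linarith

end Pool.Agent.X64.Dn
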